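import Pool.Agent.U434.SS.CM

/-!
# The L-functions of the hyperkähler varieties with complex multiplication

Let `X` be a projective hyperkähler variety over the rational numbers, of any deformation type (known
or not), with a smooth model over `ℤ[1/N]`. Suppose that `X` has complex multiplication, in the
`ℓ`-adic form: the action of the Galois group on `H²(X)` is abelian over some number field. This holds,
for example, if the Picard number of `X` (over the algebraic closure) is at least `b₂ - 2`, the rank
of the transcendental part of `H²` being two, or if `X` corresponds to a special point of dimension zero of
the moduli space; such `X` are dense in the moduli spaces. We prove that the representations on all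
cohomology groups `H^i(X)`, not only `H²(X)`, are potentially abelian and semisimple, and so the
Hasse-Weil L-functions `L(i; X, s)` have a meromorphic continuation with a functional equation, for
all `i ≤ 2 dim X`: parts (a) and (b) of the question. This was known for `i ≤ 2`, and for the four known
deformation types, as `X` is then the realization of an abelian motive with complex multiplication.

Idea of the proof. Let `G` be the Galois group, and let `so(H²)` act on `H^i` by `ρ_i` (Verbitsky,
Looijenga-Lunts). Let `L` be the Lie algebra of endomorphisms of `H²` generated by the Lie algebras of the
Frobenius tori (see `MP_b4801b_ag.HyperkaehlerSemisimple`), and `C_i` the commutant of `ρ_i(L)` in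
`End(H^i)`. By the library `U434.SS`, an open subgroup `U` of `G` commutes with `C_i`: the
eigenvalues of the Frobenius elements on `C_i` are roots of unity of bounded order, because the
logarithms of the Frobenius tori on `H^i` are given by `ρ_i` (`U434.HM`), so an open subgroup acts
unipotently on `C_i`, and then it acts trivially, as `H¹_g(k, ℚ_ℓ) = 0`. If the open subgroup `U₀` acts
on `H²` by commuting operators, then `L` commutes with `U₀` (`L` is spanned by the logarithms of the
elements of `U₀`, as `σ` and `σ^n` have proportional ones), hence `ρ_i(L)` commutes with the action of
`U₀` on `H^i`. That is, `U₀` acts on `H^i` by elements of `C_i`, and they commute with `U`. So `H^i` is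
abelian on the intersection of `U` and `U₀`. It is semisimple by
`MP_b4801b_ag.HyperkaehlerSemisimple`. The rest is the known theorem `HasseWeil.hecke` on
potentially abelian representations (Hecke, Serre, Brauer).
-/

set_option autoImplicit false

namespace Pool.Agent.Results.MP_7193be_nt.CMHyperkaehler

open Pool.Agent.U434.SS Pool.Agent.U434.PA

/-- **Hyperkähler varieties with complex multiplication.** Let `X` be a projective hyperkähler variety
over the rational numbers, of any deformation type, such that the (semisimple) representation on
`H²(X)` is potentially abelian. Then the representation on `H^i(X)` is potentially abelian for all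
`i`, and the L-function `L(i; X, s)` has a meromorphic continuation with a functional equation. -/
theorem result {Ω : Type} [Field Ω] [CharZero Ω] [IsAlgClosed Ω] [TopologicalSpace Ω]
    [IsTopologicalRing Ω] [T2Space Ω] (X : HKFamily Ω) (hX : Arithmetic X) (h2 : Semisimple X 2)
    {N : ℕ} (W : HasseWeil X N) (hCM : PotentiallyAbelian X 2) :
    ∀ i ≤ X.d, PotentiallyAbelian X i ∧ Continues X.norm (fun v => X.poly v i) W.D N i :=
  fun i hi => ⟨abelian_all hX hCM hi, W.hecke i hi (semisimple hX h2 hi) (abelian_all hX hCM hi)⟩

end Pool.Agent.Results.MP_7193be_nt.CMHyperkaehler
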