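import Pool.Agent.U156.SJ.Re

/-!
# Jensen polynomials of Hasse-Weil L-functions: the constant in the range of hyperbolicity

`Λ(s)` is the completed Hasse-Weil L-function of a cohomology group `H^i(X)` which is the sum of `m ≥ 1` parts `V(f)(-r)`,
where `f` is a newform of any level, weight `k ≥ 1` and nebentypus, and `k + 2r = i + 1` (for example of the group `H^1` of
all modular curves, of all products of elliptic curves over `ℚ` and of all abelian varieties of type `GL(2)` over `ℚ`);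
the functional equation is `s → i + 1 - s`, the degree is `2m`.  Put `F(z) = Λ((i+1)/2 + z)`, `D = 2m`, if `Λ` is real
on the real axis (as it is for all `X` over `ℚ`), and `F(z) = Λ((i+1)/2 + z) conj Λ((i+1)/2 + conj z)`, `D = 4m`,
otherwise, and write `F(z) = z^r ∑ γ(k) z^(2k) / k!`, `r ≤ 1`.

We prove that for every `κ > D / 8` the Jensen polynomials `J^{d,n}(X) = ∑ binom(d,j) γ(n+j) X^j` have degree `d` and only
real negative zeros for all sufficiently large `n` and all `d ≤ exp(n / κ)`.  Part (d) of the problem, that all zeros of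
`Λ` lie on the line `Re s = (i+1)/2`, holds for `Λ` if and only if the other `J^{d,n}` have only real nonpositive zeros
(or vanish).  If `Λ` has no zeros with `Re s > (i+1)/2 + t` then the same is true for every positive `κ > D t / 4`, in
particular for every `κ > 0` if (d) is true.

The starting file `Pool.Agent.Results.MP_7193be_nt.JensenPowersCM` proves this for the powers of the curve `y² = x³ - x`,
with some constant `κ` which is not specified.  The constants are found by following the zeros of the derivatives of `F`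
(`Pool.Agent.U156.SJ`, after the case of the Riemann zeta function in `Pool.Agent.U762.JF` by helper762 and
`Pool.Agent.U4.JC` by helper4, and the generic starting modules `Pool.Agent.W355.GJ`, `Pool.Agent.W355.LC`,
`Pool.Agent.H471R3.GJ`).
-/

set_option autoImplicit false

namespace Pool.Agent.Results.MP_7193be_nt.JensenSharpRange

open Polynomial Complex UpperHalfPlane MatrixGroups CongruenceSubgroup
open scoped ComplexConjugate

/-! ### The constituents of the cohomology -/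

/-- The `n`-th Fourier coefficient `a(n)` of `f(τ) = ∑ a(n) e^(2πinτ)`. -/
noncomputable def a {M : ℕ} {k : ℤ} (f : CuspForm (Gamma1 M : Subgroup (GL (Fin 2) ℝ)) k) (n : ℕ) :
    ℂ := (qExpansion 1 f).coeff n

/-- `f` is a newform of weight `k`, level `M`, nebentypus `ψ`; the properties that are used:
`f(γτ) = ψ(d) (cτ+d)^k f(τ)` for `γ = (a b; c d)` in `Γ₀(M)`, `a(1) = 1`, the Hecke relations
`a(mn) = a(m) a(n)` for coprime `m`, `n` and `a(p^(j+2)) = a(p) a(p^(j+1)) - ψ(p) p^(k-1) a(p^j)`,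
`conj a(n) = conj ψ(n) a(n)` for `n` prime to `M`, and the Fricke involution maps `f` to a multiple
of the form with the conjugate coefficients,
`f(-1/(Mτ)) = η (√M τ/i)^k conj (f(-conj τ))` with `|η| = 1`. -/
structure IsNewform (M : ℕ) (k : ℤ) (ψ : DirichletCharacter ℂ M)
    (f : CuspForm (Gamma1 M : Subgroup (GL (Fin 2) ℝ)) k) : Prop where
  neb : ∀ γ : SL(2, ℤ), γ ∈ Gamma0 M → ∀ τ : ℍ,
    f (γ • τ) = ψ ((γ 1 1 : ℤ) : ZMod M) * denom γ τ ^ k * f τ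
  one : a f 1 = 1
  mul : ∀ m n : ℕ, Nat.Coprime m n → a f (m * n) = a f m * a f n
  pow : ∀ p j : ℕ, p.Prime → a f (p ^ (j + 2)) = a f p * a f (p ^ (j + 1)) -
    ψ (p : ZMod M) * (p : ℂ) ^ (k - 1) * a f (p ^ j)
  dual : ∀ n : ℕ, Nat.Coprime n M → (starRingEnd ℂ) (a f n) =
    (starRingEnd ℂ) (ψ (n : ZMod M)) * a f n
  fricke : ∃ η : ℂ, ‖η‖ = 1 ∧ ∀ τ τ' τc : ℍ, (τ' : ℂ) * ((M : ℂ) * (τ : ℂ)) = -1 →
    (τc : ℂ) = -(starRingEnd ℂ) (τ : ℂ) →
    f τ' = η * (((Real.sqrt M : ℝ) : ℂ) * (τ : ℂ) / Complex.I) ^ k * (starRingEnd ℂ) (f τc)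

/-- A part `V(f) (-r)` of a cohomology group of degree `i`: a newform `f` of level `M`, weight `k` and nebentypus `ψ`,
and a Tate twist `(-r)` with `k + 2r = i + 1`. -/
structure Part (i : ℕ) where
  M : ℕ
  k : ℕ
  r : ℕ
  ψ : DirichletCharacter ℂ M
  f : CuspForm (Gamma1 M : Subgroup (GL (Fin 2) ℝ)) (k : ℤ)
  M_pos : 1 ≤ M
  k_pos : 1 ≤ k
  newform : IsNewform M k ψ f
  weight : k + 2 * r = i + 1

/-- The polynomial `P_i(X(p), T)` at `T = p^(-s)` for the sum `V` of the parts `π_0, …, π_n`: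
`∏_j (1 - a_j(p) p^(r_j - s) + ψ_j(p) p^(i - 2s))`, where `ψ_j(p) = 0` for `p ∣ M_j` (for the bad `p`
this is the polynomial of the Frobenius on the inertia invariants, so that `P(p, s)⁻¹ = L_p(i; X, s)`). -/
noncomputable def P {i n : ℕ} (π : Fin (n + 1) → Part i) (p : ℕ) (s : ℂ) : ℂ :=
  ∏ j, (1 - a (π j).f p * (p : ℂ) ^ (((π j).r : ℂ) - s) +
    (π j).ψ (p : ZMod (π j).M) * (p : ℂ) ^ ((i : ℂ) - 2 * s))

/-- The factor `∏_j (√M_j / 2π)^s Γ(s - r_j)`, up to a constant `A^(s/2) ∏_j Γ_ℂ(s - r_j)` with the conductor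
`A = ∏_j M_j`. -/
noncomputable def gam {i n : ℕ} (π : Fin (n + 1) → Part i) (s : ℂ) : ℂ :=
  ∏ j, (((Real.sqrt (π j).M / (2 * Real.pi) : ℝ) : ℂ) ^ s * Complex.Gamma (s - (π j).r))

/-- `Λ` is (up to a constant) the completed Hasse-Weil L-function `Λ_A(i; X, s)` with
`H^i(X) = π_0 ⊕ … ⊕ π_n`: it is entire and for `Re s > i/2 + 1` it is the product of `gam(s)` and the Euler product
over all primes of `P(p, s)⁻¹`. -/
def IsCompleted {i n : ℕ} (π : Fin (n + 1) → Part i) (Λ : ℂ → ℂ) : Prop :=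
  Differentiable ℂ Λ ∧ ∀ s : ℂ, (i : ℝ) / 2 + 1 < s.re → ∃ L : ℂ,
    HasProd (fun p : Nat.Primes => (P π p s)⁻¹) L ∧ Λ s = gam π s * L

/-! ### Jensen polynomials -/

open Classical in
/-- `F(z) = Λ((i+1)/2 + z)` if `Λ` is real on the real axis, and `F(z) = Λ((i+1)/2 + z) conj Λ((i+1)/2 + conj z)`
otherwise. -/
noncomputable def F (i : ℕ) (Λ : ℂ → ℂ) (z : ℂ) : ℂ :=
  if ∀ s : ℂ, Λ (conj s) = conj (Λ s) then Λ (((i : ℂ) + 1) / 2 + z)
  else Λ (((i : ℂ) + 1) / 2 + z) * conj (Λ (((i : ℂ) + 1) / 2 + conj z))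

open Classical in
/-- The degree `D` of `F`, if `d` is the degree of `Λ`. -/
noncomputable def degF (d : ℕ) (Λ : ℂ → ℂ) : ℕ := if ∀ s : ℂ, Λ (conj s) = conj (Λ s) then d else 2 * d

/-- The coefficients `γ(k) = k! / (2k+r)! * F^(2k+r)(0)`, so that `F(z) = z^r ∑ γ(k) z^(2k) / k!` if `F` is
even and `r = 0` or `F` is odd and `r = 1`. -/
noncomputable def gamma (F : ℂ → ℂ) (r k : ℕ) : ℝ :=
  (k.factorial : ℝ) / ((2 * k + r).factorial : ℝ) * (iteratedDeriv (2 * k + r) F 0).re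

/-- The Jensen polynomial `J^{d,n}(X) = ∑_{j ≤ d} binom(d,j) γ(n+j) X^j` of degree `d` and shift `n`. -/
noncomputable def jensen (F : ℂ → ℂ) (r d n : ℕ) : ℝ[X] :=
  ∑ j ∈ Finset.range (d + 1), C ((d.choose j : ℝ) * gamma F r (n + j)) * X ^ j

/-- The polynomial has degree `d` and only real negative zeros. -/
def Negative (d : ℕ) (P : ℝ[X]) : Prop := P.natDegree = d ∧ ∀ z : ℂ, aeval z P = 0 → z.im = 0 ∧ z.re < 0

/-- The polynomial vanishes or has only real nonpositive zeros. -/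
def Nonpositive (P : ℝ[X]) : Prop := P = 0 ∨ ∀ z : ℂ, aeval z P = 0 → z.im = 0 ∧ z.re ≤ 0

/-- The statement for `κ`: for `n ≥ N` and `κ log d ≤ n` (that is, `d ≤ exp(n / κ)`) the Jensen polynomials `J^{d,n}` of
`F` have degree `d` and only real negative zeros, and all zeros of `Λ` lie on the line `Re s = (i+1)/2` if and only if
the others have only real nonpositive zeros (or vanish). -/
def Range (i : ℕ) (Λ : ℂ → ℂ) (r : ℕ) (κ : ℝ) : Prop := ∃ N : ℕ,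
  (∀ n d : ℕ, N ≤ n → 1 ≤ d → κ * Real.log d ≤ n → Negative d (jensen (F i Λ) r d n)) ∧
  ((∀ s : ℂ, Λ s = 0 → s.re = ((i : ℝ) + 1) / 2) ↔
    ∀ n d : ℕ, 1 ≤ d → (n < N ∨ (n : ℝ) < κ * Real.log d) → Nonpositive (jensen (F i Λ) r d n))

/-- **Main theorem.** The completed Hasse-Weil L-function `Λ` with the parts `π_0, …, π_n`. -/
theorem result {i n : ℕ} (π : Fin (n + 1) → Part i) :
    ∃ Λ : ℂ → ℂ, IsCompleted π Λ ∧ (∀ Λ' : ℂ → ℂ, IsCompleted π Λ' → Λ' = Λ) ∧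
      (∃ W : ℂ, ‖W‖ = 1 ∧ ∀ s : ℂ, Λ (i + 1 - s) = W * conj (Λ (conj s))) ∧
      (∀ s : ℂ, Λ s = 0 → |s.re - ((i : ℝ) + 1) / 2| ≤ 1 / 2) ∧
      ∃ r : ℕ, r ≤ 1 ∧ (∀ z : ℂ, F i Λ (-z) = (-1) ^ r * F i Λ z) ∧
        (∀ κ : ℝ, (degF (2 * (n + 1)) Λ : ℝ) / 8 < κ → Range i Λ r κ) ∧
        (∀ t κ : ℝ, 0 ≤ t → (∀ s : ℂ, Λ s = 0 → s.re ≤ ((i : ℝ) + 1) / 2 + t) → 0 < κ →
          (degF (2 * (n + 1)) Λ : ℝ) * t / 4 < κ → Range i Λ r κ) := by
  classical
  have hone : ∀ j : Fin (n + 1), ∃ F₁ : ℂ → ℂ, (∀ s : ℂ, (i : ℝ) / 2 + 1 < s.re →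
      HasProd (fun p : Nat.Primes =>
        (1 - a (π j).f p * ((p : ℕ) : ℂ) ^ (((π j).r : ℂ) - s) +
          (π j).ψ ((p : ℕ) : ZMod (π j).M) * ((p : ℕ) : ℂ) ^ ((i : ℂ) - 2 * s))⁻¹) (F₁ s)) ∧
      Pool.Agent.U156.SJ.Cp 2 ((i : ℝ) / 2 + 1) (((i : ℂ) + 1) / 2)
        (fun s => ((Real.sqrt (π j).M / (2 * Real.pi) : ℝ) : ℂ) ^ s * Complex.Gamma (s - (π j).r) * F₁ s) := by
    intro j
    have : NeZero (π j).M := ⟨Nat.one_le_iff_ne_zero.1 (π j).M_pos⟩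
    have hf := (π j).newform
    obtain ⟨η, hη, hfr⟩ := hf.fricke
    have hf' : W388.IsNewfC (π j).M (π j).k (π j).ψ (π j).f η :=
      ⟨hf.neb, hf.one, hf.mul, hf.pow, hf.dual, hη, hfr⟩
    exact Pool.Agent.U156.SJ.cp_new (π j).k_pos hf' (π j).weight
  choose F₁ hF₁ hCp using hone
  have hcp := Pool.Agent.U156.SJ.cp_prod _ (fun _ => 2) hCp
  rw [Finset.sum_const, Finset.card_univ, Fintype.card_fin, smul_eq_mul, mul_comm (n + 1) 2] at hcp
  have hcim : (((i : ℂ) + 1) / 2).im = 0 := by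
    rw [show ((i : ℂ) + 1) / 2 = ((((i : ℝ) + 1) / 2 : ℝ) : ℂ) by push_cast; ring, Complex.ofReal_im]
  have hcre : (((i : ℂ) + 1) / 2).re = ((i : ℝ) + 1) / 2 := by
    rw [show ((i : ℂ) + 1) / 2 = ((((i : ℝ) + 1) / 2 : ℝ) : ℂ) by push_cast; ring, Complex.ofReal_re]
  obtain ⟨Λ, k1, k2, k3, k4, r, hr, k5, k6, k7⟩ := Pool.Agent.U156.SJ.cp_final hcim hcp
  rw [hcre] at k4 k6 k7
  have hP : ∀ s : ℂ, (i : ℝ) / 2 + 1 < s.re →
      HasProd (fun p : Nat.Primes => (P π p s)⁻¹) (∏ j, F₁ j s) := by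
    intro s hs
    have h6 : HasProd (fun p : Nat.Primes => ∏ j, (1 - a (π j).f p * ((p : ℕ) : ℂ) ^ (((π j).r : ℂ) - s) +
          (π j).ψ ((p : ℕ) : ZMod (π j).M) * ((p : ℕ) : ℂ) ^ ((i : ℂ) - 2 * s))⁻¹) (∏ j, F₁ j s) :=
      hasProd_prod fun j _ => hF₁ j s hs
    unfold P
    simpa only [Finset.prod_inv_distrib] using h6
  have hΛ : ∀ s : ℂ, (i : ℝ) / 2 + 1 < s.re → Λ s = gam π s * ∏ j, F₁ j s := by
    intro s hs
    rw [k2 s hs]
    unfold gam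
    rw [← Finset.prod_mul_distrib]
  have hmain : ∀ t κ : ℝ, 0 ≤ t → (∀ s : ℂ, Λ s = 0 → s.re ≤ ((i : ℝ) + 1) / 2 + t) → 0 < κ →
      (degF (2 * (n + 1)) Λ : ℝ) * t / 4 < κ → Range i Λ r κ := fun t κ ht hz hκ0 hκ =>
    Pool.Agent.U156.SJ.crit_range k7 (k6 t κ ht hz hκ0 hκ)
  have hpos : (0 : ℝ) ≤ (degF (2 * (n + 1)) Λ : ℝ) := Nat.cast_nonneg _
  refine ⟨Λ, ⟨k1, fun s hs => ⟨_, hP s hs, hΛ s hs⟩⟩, fun Λ' h' => ?_, ?_, k4, r, hr, k5, fun κ hκ => ?_, hmain⟩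
  · refine Pool.Agent.R838.TW.uniq k1 h'.1 ⟨_, hΛ⟩ ⟨(i : ℝ) / 2 + 1, fun s hs => ?_⟩
    obtain ⟨L, h1, h2⟩ := h'.2 s hs
    rw [h2, h1.unique (hP s hs)]
  · obtain ⟨W, hW, h7⟩ := k3
    refine ⟨W, hW, fun s => ?_⟩
    have h8 := h7 s
    rwa [mul_div_cancel₀ _ (two_ne_zero' ℂ)] at h8
  · refine hmain (1 / 2) κ (by norm_num) (fun s hs => ?_) ?_ ?_
    · linarith [(abs_le.1 (k4 s hs)).2]
    · linarith
    · linarith

end Pool.Agent.Results.MP_7193be_nt.JensenSharpRange
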