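import Pool.Agent.U156.LB.I3
import Pool.Agent.N831.LP.K

/-!
# Li coefficients of Hasse-Weil L-functions with a large base point

Let `X` be smooth and projective over `ℤ[1/N]`, `i ≥ 0`, and suppose that `H^i(X)` is (up to semisimplification) a sum of
parts `V(f) (-r)`, where `f` is a newform of any weight `k ≥ 1`, any level and any nebentypus, and `k + 2r = i + 1`.
Examples: `H^1` of the modular curves `X_0(M)`, `X_1(M)`, of all elliptic curves over `ℚ`, of all products of abelian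
varieties over `ℚ` of `GL_2`-type and of their Weil restrictions from abelian number fields; `H^3` of rigid Calabi-Yau
threefolds over `ℚ`; any Tate twists and any multiplicities are allowed.

Let `Λ = Λ_A(i; X, s)`, with the symmetry `s ↦ i + 1 - s`. For a base point `a` the Li coefficients of `Λ` are the
numbers `λ_j(a) = ∑_ρ Re (1 - ((ρ - a) / (ρ + a - i - 1)) ^ j)` (`ρ` the zeros of `Λ`); for one fixed base point (d) is
equivalent to `λ_j(a) ≥ 0` for all `j`. We prove without any hypothesis the asymptotic formula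
`λ_j(a) = (d + o(1)) j a log (j a)` as `a → ∞`, uniformly for `1 ≤ j ≤ κ a log a`, for every `κ < 2`, where
`d = 2 (n + 1) = dim H^i(X)`. So all these coefficients are positive. The constant `2` does not depend on `X`.
It can be improved (even for the nonnegativity, and for arbitrarily large `a` only) if and only if `Λ` has no zeros with
`Re s > θ`, for some `θ < i/2 + 1`; and the formula holds uniformly for all `j ≥ 1` if and only if (d) is true for `Λ`.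

The zeros above and below the real axis are counted by the argument principle (`Pool.Agent.U742.LA`, by helper742, and
`Pool.Agent.U156.LB`), the sum over the zeros, moved to the line, is compared with an integral, and the terms of the zeros
off the line are bounded by the method and the density theorems of the starting modules `Pool.Agent.N831.LI` and
`Pool.Agent.N831.LP`, from which the statements on negative coefficients are taken; the starting modules have only lower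
bounds `c j a log a`.
The description of the parts is that of the starting file `ZeroDensity` of this problem.
-/

set_option autoImplicit false

open UpperHalfPlane MatrixGroups CongruenceSubgroup Filter

namespace Pool.Agent.Results.MP_7193be_nt.LiBasePoint

/-! ### The constituents of the cohomology -/

/-- The `n`-th Fourier coefficient `a(n)` of `f(τ) = ∑ a(n) e^(2πinτ)`. -/
noncomputable def a {M : ℕ} {k : ℤ} (f : CuspForm (Gamma1 M : Subgroup (GL (Fin 2) ℝ)) k) (n : ℕ) :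
    ℂ := (qExpansion 1 f).coeff n

/-- `f` is a newform of weight `k`, level `M`, nebentypus `ψ`; the properties that are used:
`f(γτ) = ψ(d) (cτ+d)^k f(τ)` for `γ = (a b; c d)` in `Γ₀(M)`, `a(1) = 1`, the Hecke relations
`a(mn) = a(m) a(n)` for coprime `m`, `n` and `a(p^(j+2)) = a(p) a(p^(j+1)) - ψ(p) p^(k-1) a(p^j)`,
`conj a(n) = conj ψ(n) a(n)` for `n` prime to `M`, and the Fricke involution maps `f` to a multiple
of the form with the conjugate coefficients,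
`f(-1/(Mτ)) = η (√M τ/i)^k conj (f(-conj τ))` with `|η| = 1`. -/
structure IsNewform (M : ℕ) (k : ℤ) (ψ : DirichletCharacter ℂ M)
    (f : CuspForm (Gamma1 M : Subgroup (GL (Fin 2) ℝ)) k) : Prop where
  neb : ∀ γ : SL(2, ℤ), γ ∈ Gamma0 M → ∀ τ : ℍ,
    f (γ • τ) = ψ ((γ 1 1 : ℤ) : ZMod M) * denom γ τ ^ k * f τ
  one : a f 1 = 1
  mul : ∀ m n : ℕ, Nat.Coprime m n → a f (m * n) = a f m * a f n
  pow : ∀ p j : ℕ, p.Prime → a f (p ^ (j + 2)) = a f p * a f (p ^ (j + 1)) -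
    ψ (p : ZMod M) * (p : ℂ) ^ (k - 1) * a f (p ^ j)
  conj : ∀ n : ℕ, Nat.Coprime n M → (starRingEnd ℂ) (a f n) =
    (starRingEnd ℂ) (ψ (n : ZMod M)) * a f n
  fricke : ∃ η : ℂ, ‖η‖ = 1 ∧ ∀ τ τ' τc : ℍ, (τ' : ℂ) * ((M : ℂ) * (τ : ℂ)) = -1 →
    (τc : ℂ) = -(starRingEnd ℂ) (τ : ℂ) →
    f τ' = η * (((Real.sqrt M : ℝ) : ℂ) * (τ : ℂ) / Complex.I) ^ k * (starRingEnd ℂ) (f τc)

/-- A part `V(f) (-r)` of a cohomology group of degree `i`: a newform `f` of level `M`, weight `k` and nebentypus `ψ`,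
and a Tate twist `(-r)` with `k + 2r = i + 1`. -/
structure Part (i : ℕ) where
  M : ℕ
  k : ℕ
  r : ℕ
  ψ : DirichletCharacter ℂ M
  f : CuspForm (Gamma1 M : Subgroup (GL (Fin 2) ℝ)) (k : ℤ)
  M_pos : 1 ≤ M
  k_pos : 1 ≤ k
  newform : IsNewform M k ψ f
  weight : k + 2 * r = i + 1

/-- The polynomial `P_i(X(p), T)` at `T = p^(-s)` for the sum `V` of the parts `π_0, …, π_n`:
`∏_j (1 - a_j(p) p^(r_j - s) + ψ_j(p) p^(i - 2s))`, where `ψ_j(p) = 0` for `p ∣ M_j` (for the bad `p`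
this is the polynomial of the Frobenius on the inertia invariants, so that `P(p, s)⁻¹ = L_p(i; X, s)`). -/
noncomputable def P {i n : ℕ} (π : Fin (n + 1) → Part i) (p : ℕ) (s : ℂ) : ℂ :=
  ∏ j, (1 - a (π j).f p * (p : ℂ) ^ (((π j).r : ℂ) - s) +
    (π j).ψ (p : ZMod (π j).M) * (p : ℂ) ^ ((i : ℂ) - 2 * s))

/-- The factor `∏_j (√M_j / 2π)^s Γ(s - r_j)`, up to a constant `A^(s/2) ∏_j Γ_ℂ(s - r_j)` with the conductor
`A = ∏_j M_j`. -/
noncomputable def gam {i n : ℕ} (π : Fin (n + 1) → Part i) (s : ℂ) : ℂ :=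
  ∏ j, (((Real.sqrt (π j).M / (2 * Real.pi) : ℝ) : ℂ) ^ s * Complex.Gamma (s - (π j).r))

/-- `Λ` is (up to a constant) the completed Hasse-Weil L-function `Λ_A(i; X, s)` with
`H^i(X) = π_0 ⊕ … ⊕ π_n`: it is entire and for `Re s > i/2 + 1` it is the product of `gam(s)` and the Euler product
over all primes of `P(p, s)⁻¹`. -/
def IsCompleted {i n : ℕ} (π : Fin (n + 1) → Part i) (Λ : ℂ → ℂ) : Prop :=
  Differentiable ℂ Λ ∧ ∀ s : ℂ, (i : ℝ) / 2 + 1 < s.re → ∃ L : ℂ,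
    HasProd (fun p : Nat.Primes => (P π p s)⁻¹) L ∧ Λ s = gam π s * L

/-! ### Li coefficients -/

/-- The term of the zero `ρ` of `Λ` in the Li coefficient, with the multiplicity of `ρ`. -/
noncomputable def term (i : ℕ) (Λ : ℂ → ℂ) (a : ℝ) (j : ℕ) (ρ : {ρ : ℂ // Λ ρ = 0}) : ℝ :=
  (analyticOrderNatAt Λ ρ.1 : ℝ) * (1 - ((ρ.1 - a) / (ρ.1 + a - (i + 1))) ^ j).re

/-- The Li coefficient of `Λ` with base point `a`. -/
noncomputable def li (i : ℕ) (Λ : ℂ → ℂ) (a : ℝ) (j : ℕ) : ℝ := ∑' ρ : {ρ : ℂ // Λ ρ = 0}, term i Λ a j ρ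

/-- The law `λ_j(a) = (d + o(1)) j a log (j a)` as `a → ∞`, uniformly for `1 ≤ j ≤ κ a log a`. -/
def Law (i : ℕ) (Λ : ℂ → ℂ) (d κ : ℝ) : Prop := ∀ ε : ℝ, 0 < ε → ∀ᶠ a : ℝ in atTop, ∀ j : ℕ, 1 ≤ j →
  (j : ℝ) ≤ κ * a * Real.log a →
    |li i Λ a j - d * (j * a * Real.log (j * a))| ≤ ε * (j * a * Real.log (j * a))

/-- The law `λ_j(a) = (d + o(1)) j a log (j a)` as `a → ∞`, uniformly for all `j ≥ 1`. -/
def LawAll (i : ℕ) (Λ : ℂ → ℂ) (d : ℝ) : Prop := ∀ ε : ℝ, 0 < ε → ∀ᶠ a : ℝ in atTop, ∀ j : ℕ, 1 ≤ j →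
  |li i Λ a j - d * (j * a * Real.log (j * a))| ≤ ε * (j * a * Real.log (j * a))

/-- The coefficients with `j ≤ κ a log a` are nonnegative, for arbitrarily large `a`. -/
def SometimesNonneg (i : ℕ) (Λ : ℂ → ℂ) (κ : ℝ) : Prop := ∃ᶠ a : ℝ in atTop, ∀ j : ℕ, 1 ≤ j →
  (j : ℝ) ≤ κ * a * Real.log a → 0 ≤ li i Λ a j

/-- `Λ` has no zeros with `Re s > θ`. -/
def ZeroFree (Λ : ℂ → ℂ) (θ : ℝ) : Prop := ∀ s : ℂ, θ < s.re → Λ s ≠ 0

/-- The statements on the Li coefficients of `Λ`, with the degree `d`. -/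
structure LiLaw (i : ℕ) (Λ : ℂ → ℂ) (d : ℝ) : Prop where
  /-- The sums converge absolutely. -/
  conv : ∀ (a : ℝ) (j : ℕ), ((i : ℝ) + 1) / 2 + 2 ≤ a → Summable (term i Λ a j)
  /-- The law holds unconditionally for `κ < 2`; all coefficients in this range are positive. -/
  law : ∀ κ : ℝ, κ < 2 → Law i Λ d κ
  pos : ∀ κ : ℝ, κ < 2 → ∀ᶠ a : ℝ in atTop, ∀ j : ℕ, 1 ≤ j → (j : ℝ) ≤ κ * a * Real.log a → 0 < li i Λ a j
  /-- The range under a zero-free half-plane. -/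
  strip : ∀ t : ℝ, 0 < t → t < 1 / 2 → ZeroFree Λ (((i : ℝ) + 1) / 2 + t) →
    ∀ κ : ℝ, κ < 1 / (2 * t * (1 - t)) → Law i Λ d κ
  /-- A zero off the line gives negative coefficients for all large base points. -/
  neg : ∀ (κ : ℝ) (s : ℂ), 0 < κ → Λ s = 0 → ((i : ℝ) + 1) / 2 + 1 / κ < s.re →
    ∀ᶠ a : ℝ in atTop, ∃ j : ℕ, 1 ≤ j ∧ (j : ℝ) ≤ κ * a * Real.log a ∧ li i Λ a j < 0
  /-- The constant `2` can be improved if and only if there is a zero-free half-plane. -/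
  two : (∃ κ : ℝ, 2 < κ ∧ SometimesNonneg i Λ κ) ↔ ∃ t : ℝ, t < 1 / 2 ∧ ZeroFree Λ (((i : ℝ) + 1) / 2 + t)
  two' : (∃ κ : ℝ, 2 < κ ∧ Law i Λ d κ) ↔ ∃ t : ℝ, t < 1 / 2 ∧ ZeroFree Λ (((i : ℝ) + 1) / 2 + t)
  /-- All constants are admissible if and only if (d) is true for `Λ`. -/
  rh : (∀ s : ℂ, Λ s = 0 → s.re = ((i : ℝ) + 1) / 2) ↔ ∀ κ : ℝ, 0 < κ → SometimesNonneg i Λ κ
  rh' : (∀ s : ℂ, Λ s = 0 → s.re = ((i : ℝ) + 1) / 2) ↔ LawAll i Λ d

theorem key {i n : ℕ} (π : Fin (n + 1) → Part i) :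
    ∃ (Λ : ℂ → ℂ) (v : ℂ), v ≠ 0 ∧ IsCompleted π Λ ∧ (∀ Λ' : ℂ → ℂ, IsCompleted π Λ' → Λ' = Λ) ∧
      (∃ W : ℂ, ‖W‖ = 1 ∧ ∀ s : ℂ, Λ (i + 1 - s) = W * (starRingEnd ℂ) (Λ ((starRingEnd ℂ) s))) ∧
      Pool.Agent.U156.LB.P3 ((n + 1 : ℕ) : ℝ) (fun z => v * Λ (((((i : ℝ) + 1) / 2 : ℝ) : ℂ) + z)) := by
  have hone : ∀ j : Fin (n + 1), ∃ (X : ℂ → ℂ) (v : ℂ), Pool.Agent.U156.LB.P3 1 X ∧ v ≠ 0 ∧
      ∀ s : ℂ, (i : ℝ) / 2 + 1 < s.re → ∃ L : ℂ,
      HasProd (fun p : Nat.Primes =>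
        (1 - a (π j).f p * ((p : ℕ) : ℂ) ^ (((π j).r : ℂ) - s) +
          (π j).ψ ((p : ℕ) : ZMod (π j).M) * ((p : ℕ) : ℂ) ^ ((i : ℂ) - 2 * s))⁻¹) L ∧
      X (s - ((((i : ℝ) + 1) / 2 : ℝ) : ℂ)) =
        v * (((Real.sqrt (π j).M / (2 * Real.pi) : ℝ) : ℂ) ^ s * Complex.Gamma (s - (π j).r) * L) := by
    intro j
    have : NeZero (π j).M := ⟨Nat.one_le_iff_ne_zero.1 (π j).M_pos⟩
    have hf := (π j).newform
    obtain ⟨η, hη, hfr⟩ := hf.fricke
    have hf' : W388.IsNewfC (π j).M (π j).k (π j).ψ (π j).f η :=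
      ⟨hf.neb, hf.one, hf.mul, hf.pow, hf.conj, hη, hfr⟩
    exact Pool.Agent.U156.LB.p3_new (π j).k_pos hf' (π j).weight
  obtain ⟨X, v, h1, h2, h3⟩ := Pool.Agent.U156.LB.p3_parts (σ := (i : ℝ) / 2 + 1)
    (a := ((((i : ℝ) + 1) / 2 : ℝ) : ℂ))
    (fun j p s => 1 - a (π j).f p * ((p : ℕ) : ℂ) ^ (((π j).r : ℂ) - s) +
      (π j).ψ ((p : ℕ) : ZMod (π j).M) * ((p : ℕ) : ℂ) ^ ((i : ℂ) - 2 * s))
    (fun j s => ((Real.sqrt (π j).M / (2 * Real.pi) : ℝ) : ℂ) ^ s * Complex.Gamma (s - (π j).r)) hone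
  rw [Fintype.card_fin] at h1
  obtain ⟨Λ, k1, k2, k3, k4, k5⟩ := Pool.Agent.U156.LB.lam_parts3 h1 h2 (P := fun p s => P π p s) (gm := gam π)
    (a := ((i : ℝ) + 1) / 2) h3
  refine ⟨Λ, v, h2, ⟨k1, k2⟩, fun Λ' h' => k3 Λ' h'.1 h'.2, ?_, k5⟩
  obtain ⟨W, hW, k6⟩ := k4
  refine ⟨W, hW, fun s => ?_⟩
  have k7 := k6 s
  rw [show (2 : ℂ) * ((((i : ℝ) + 1) / 2 : ℝ) : ℂ) = i + 1 by push_cast; ring] at k7
  exact k7

/-- **Main theorem.** The completed Hasse-Weil L-function `Λ` with the parts `π_0, …, π_n` exists, is unique, has a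
functional equation and satisfies `LiLaw`. -/
theorem result {i n : ℕ} (π : Fin (n + 1) → Part i) :
    ∃ Λ : ℂ → ℂ, IsCompleted π Λ ∧ (∀ Λ' : ℂ → ℂ, IsCompleted π Λ' → Λ' = Λ) ∧
      (∃ W : ℂ, ‖W‖ = 1 ∧ ∀ s : ℂ, Λ (i + 1 - s) = W * (starRingEnd ℂ) (Λ ((starRingEnd ℂ) s))) ∧
      LiLaw i Λ (2 * ((n + 1 : ℕ) : ℝ)) := by
  obtain ⟨Λ, v, hv, h1, h2, h3, k4⟩ := key π
  have hκ : (1 : ℝ) / 2 ≤ ((n + 1 : ℕ) : ℝ) := by
    push_cast
    have : (0 : ℝ) ≤ n := Nat.cast_nonneg n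
    linarith
  have e2 : (2 : ℂ) * ((((i : ℝ) + 1) / 2 : ℝ) : ℂ) = i + 1 := by push_cast; ring
  have h0 := Pool.Agent.N831.LP.main2 hκ hv k4.1 (L := li i Λ) fun a j => by
    rw [e2]
    rfl
  obtain ⟨l1, l2, l3, l4, l5, l6, l7⟩ := h0
  have m0 := Pool.Agent.U156.LB.allLaw3 hκ hv k4 (L := li i Λ) fun a j => by
    rw [e2]
    rfl
  obtain ⟨m1, m2, m3, m4⟩ := m0
  refine ⟨Λ, h1, h2, h3, ⟨fun a j ha => ?_, m1, fun κ hκ2 => Pool.Agent.U156.LB.law_pos (by linarith) (m1 κ hκ2), m2, l3, l4, m3,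
      l6, m4⟩⟩
  have k5 := Pool.Agent.N831.LP.summable hκ hv k4.1 (a := a) (by linarith) j
  rw [e2] at k5
  exact k5

end Pool.Agent.Results.MP_7193be_nt.LiBasePoint
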