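import Pool.Agent.N831.LP.K
import Pool.Agent.U544.LS.Law
import Pool.Agent.U544.LS.Ex

/-!
# The Riemann hypothesis for Hasse-Weil L-functions and Li coefficients along sparse sequences

Let `X` be smooth and projective over `ℤ[1/N]`, `i ≥ 0`, and suppose that `H^i(X)` is (up to semisimplification) a sum of
parts `V(f) (-r)`, where `f` is a newform of any weight `k ≥ 1`, any level and any nebentypus, and `k + 2r = i + 1`.
Examples: `H^1` of the modular curves `X_0(M)`, `X_1(M)`, of all elliptic curves over `ℚ`, of all products of abelian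
varieties over `ℚ` of `GL_2`-type and of their Weil restrictions from abelian number fields; `H^3` of rigid Calabi-Yau
threefolds over `ℚ`; any Tate twists and any multiplicities are allowed.

Let `Λ = Λ_A(i; X, s)` and `λ_j(a) = ∑_ρ Re (1 - ((ρ - a) / (ρ + a - i - 1)) ^ j)` for a base point
`a ≥ (i + 3) / 2` (`ρ` the zeros of `Λ`). Let `S` be any set of Bohr recurrence, for instance the set of the squares, of
the `k`-th powers, of the values of a polynomial with integral coefficients, constant term `0` and positive leading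
coefficient, of the differences `s_j - s_i` of any increasing sequence, or any set which contains arbitrarily
long blocks. We show:

* a zero `s` with `Re s > (i + 1) / 2` makes `λ_n(a) ≤ - R^n / 4` for infinitely many `n ∈ S`, where
  `R = |(s + a - i - 1) / (s - a)| > 1`;
* for every fixed base point the Riemann hypothesis (d) for `Λ` is equivalent to `λ_n(a) ≥ 0` for all large
  `n ∈ S`, and also to `λ_n(a) ≥ - r^n` for all large `n ∈ S`, for every `r > 1`;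
* a lower bound `λ_n(a) ≥ - r^n` for all large `n ∈ S` implies `|λ_n(a)| ≤ r'^n` for all large `n`, for every
  `r' > r`;
* zero-free half-planes are equivalent to lower bounds for `λ_n(a)`, `n ∈ S`, for arbitrarily large `a`.

The description of the parts is that of the starting file `ZeroDensity` of this problem.
-/

set_option autoImplicit false

open UpperHalfPlane MatrixGroups CongruenceSubgroup Filter

namespace Pool.Agent.Results.MP_7193be_nt.SparseLiCriteria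

/-! ### The constituents of the cohomology -/

/-- The `n`-th Fourier coefficient `a(n)` of `f(τ) = ∑ a(n) e^(2πinτ)`. -/
noncomputable def a {M : ℕ} {k : ℤ} (f : CuspForm (Gamma1 M : Subgroup (GL (Fin 2) ℝ)) k) (n : ℕ) :
    ℂ := (qExpansion 1 f).coeff n

/-- `f` is a newform of weight `k`, level `M`, nebentypus `ψ`; the properties that are used:
`f(γτ) = ψ(d) (cτ+d)^k f(τ)` for `γ = (a b; c d)` in `Γ₀(M)`, `a(1) = 1`, the Hecke relations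
`a(mn) = a(m) a(n)` for coprime `m`, `n` and `a(p^(j+2)) = a(p) a(p^(j+1)) - ψ(p) p^(k-1) a(p^j)`,
`conj a(n) = conj ψ(n) a(n)` for `n` prime to `M`, and the Fricke involution maps `f` to a multiple
of the form with the conjugate coefficients,
`f(-1/(Mτ)) = η (√M τ/i)^k conj (f(-conj τ))` with `|η| = 1`. -/
structure IsNewform (M : ℕ) (k : ℤ) (ψ : DirichletCharacter ℂ M)
    (f : CuspForm (Gamma1 M : Subgroup (GL (Fin 2) ℝ)) k) : Prop where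
  neb : ∀ γ : SL(2, ℤ), γ ∈ Gamma0 M → ∀ τ : ℍ,
    f (γ • τ) = ψ ((γ 1 1 : ℤ) : ZMod M) * denom γ τ ^ k * f τ
  one : a f 1 = 1
  mul : ∀ m n : ℕ, Nat.Coprime m n → a f (m * n) = a f m * a f n
  pow : ∀ p j : ℕ, p.Prime → a f (p ^ (j + 2)) = a f p * a f (p ^ (j + 1)) -
    ψ (p : ZMod M) * (p : ℂ) ^ (k - 1) * a f (p ^ j)
  conj : ∀ n : ℕ, Nat.Coprime n M → (starRingEnd ℂ) (a f n) =
    (starRingEnd ℂ) (ψ (n : ZMod M)) * a f n
  fricke : ∃ η : ℂ, ‖η‖ = 1 ∧ ∀ τ τ' τc : ℍ, (τ' : ℂ) * ((M : ℂ) * (τ : ℂ)) = -1 →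
    (τc : ℂ) = -(starRingEnd ℂ) (τ : ℂ) →
    f τ' = η * (((Real.sqrt M : ℝ) : ℂ) * (τ : ℂ) / Complex.I) ^ k * (starRingEnd ℂ) (f τc)

/-- A part `V(f) (-r)` of a cohomology group of degree `i`: a newform `f` of level `M`, weight `k` and nebentypus `ψ`,
and a Tate twist `(-r)` with `k + 2r = i + 1`. -/
structure Part (i : ℕ) where
  M : ℕ
  k : ℕ
  r : ℕ
  ψ : DirichletCharacter ℂ M
  f : CuspForm (Gamma1 M : Subgroup (GL (Fin 2) ℝ)) (k : ℤ)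
  M_pos : 1 ≤ M
  k_pos : 1 ≤ k
  newform : IsNewform M k ψ f
  weight : k + 2 * r = i + 1

/-- The polynomial `P_i(X(p), T)` at `T = p^(-s)` for the sum `V` of the parts `π_0, …, π_n`:
`∏_j (1 - a_j(p) p^(r_j - s) + ψ_j(p) p^(i - 2s))`, where `ψ_j(p) = 0` for `p ∣ M_j` (for the bad `p`
this is the polynomial of the Frobenius on the inertia invariants, so that `P(p, s)⁻¹ = L_p(i; X, s)`). -/
noncomputable def P {i n : ℕ} (π : Fin (n + 1) → Part i) (p : ℕ) (s : ℂ) : ℂ :=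
  ∏ j, (1 - a (π j).f p * (p : ℂ) ^ (((π j).r : ℂ) - s) +
    (π j).ψ (p : ZMod (π j).M) * (p : ℂ) ^ ((i : ℂ) - 2 * s))

/-- The factor `∏_j (√M_j / 2π)^s Γ(s - r_j)`, up to a constant `A^(s/2) ∏_j Γ_ℂ(s - r_j)` with the conductor
`A = ∏_j M_j`. -/
noncomputable def gam {i n : ℕ} (π : Fin (n + 1) → Part i) (s : ℂ) : ℂ :=
  ∏ j, (((Real.sqrt (π j).M / (2 * Real.pi) : ℝ) : ℂ) ^ s * Complex.Gamma (s - (π j).r))

/-- `Λ` is (up to a constant) the completed Hasse-Weil L-function `Λ_A(i; X, s)` with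
`H^i(X) = π_0 ⊕ … ⊕ π_n`: it is entire and for `Re s > i/2 + 1` it is the product of `gam(s)` and the Euler product
over all primes of `P(p, s)⁻¹`. -/
def IsCompleted {i n : ℕ} (π : Fin (n + 1) → Part i) (Λ : ℂ → ℂ) : Prop :=
  Differentiable ℂ Λ ∧ ∀ s : ℂ, (i : ℝ) / 2 + 1 < s.re → ∃ L : ℂ,
    HasProd (fun p : Nat.Primes => (P π p s)⁻¹) L ∧ Λ s = gam π s * L

/-! ### Li coefficients -/

/-- The term of the zero `ρ` of `Λ` in the Li coefficient, with the multiplicity of `ρ`. -/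
noncomputable def term (i : ℕ) (Λ : ℂ → ℂ) (a : ℝ) (n : ℕ) (ρ : {ρ : ℂ // Λ ρ = 0}) : ℝ :=
  (analyticOrderNatAt Λ ρ.1 : ℝ) * (1 - ((ρ.1 - a) / (ρ.1 + a - (i + 1))) ^ n).re

/-- The Li coefficient of `Λ` with base point `a`. -/
noncomputable def li (i : ℕ) (Λ : ℂ → ℂ) (a : ℝ) (n : ℕ) : ℝ := ∑' ρ : {ρ : ℂ // Λ ρ = 0}, term i Λ a n ρ

/-- `Λ` has no zeros with `Re s > θ`. -/
def ZeroFree (Λ : ℂ → ℂ) (θ : ℝ) : Prop := ∀ s : ℂ, θ < s.re → Λ s ≠ 0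

/-- For all large base points `a`, `|λ_n(a)| ≤ exp (κ n / a)` for all large `n`. -/
def Small (i : ℕ) (Λ : ℂ → ℂ) (κ : ℝ) : Prop :=
  ∀ᶠ a : ℝ in atTop, ∀ᶠ n : ℕ in atTop, |li i Λ a n| ≤ Real.exp (κ * n / a)

/-- For arbitrarily large base points `a`, `λ_n(a) ≥ -exp (κ n / a)` for all large `n ∈ S`. -/
def LowerOn (S : Set ℕ) (i : ℕ) (Λ : ℂ → ℂ) (κ : ℝ) : Prop :=
  ∃ᶠ a : ℝ in atTop, ∀ᶠ n : ℕ in atTop, n ∈ S → -Real.exp (κ * n / a) ≤ li i Λ a n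

/-- `S` is a set of Bohr recurrence: for finitely many complex numbers `ζ` of absolute value one there are
arbitrarily large `n ∈ S` such that all the `ζ ^ n` are close to `1`. -/
def IsBohrRecurrent (S : Set ℕ) : Prop :=
  ∀ E : Finset ℂ, (∀ ζ ∈ E, ‖ζ‖ = 1) → ∀ δ : ℝ, 0 < δ → ∀ n₀ : ℕ,
    ∃ n ∈ S, n₀ ≤ n ∧ ∀ ζ ∈ E, ‖ζ ^ n - 1‖ < δ

/-- The statements on the Li coefficients `λ_n(a)`, `n ∈ S`, of `Λ`. -/
structure SparseLaw (S : Set ℕ) (i : ℕ) (Λ : ℂ → ℂ) : Prop where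
  /-- A zero off the line: for infinitely many `n ∈ S` the coefficient is exponentially large and negative. -/
  off : ∀ (a : ℝ) (s : ℂ), ((i : ℝ) + 3) / 2 ≤ a → Λ s = 0 → ((i : ℝ) + 1) / 2 < s.re →
    1 < ‖(s + a - (i + 1)) / (s - a)‖ ∧ ∀ n₀ : ℕ, ∃ n ∈ S, n₀ ≤ n ∧
      li i Λ a n ≤ -(1 / 4 * ‖(s + a - (i + 1)) / (s - a)‖ ^ n)
  /-- One-sided bounds on `S` give two-sided bounds for all `n`. -/
  bound : ∀ a r r' : ℝ, ((i : ℝ) + 3) / 2 ≤ a → 1 ≤ r → r < r' →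
    (∀ᶠ n : ℕ in atTop, n ∈ S → -(r ^ n) ≤ li i Λ a n) → ∀ᶠ n : ℕ in atTop, |li i Λ a n| ≤ r' ^ n
  /-- The Riemann hypothesis (d) for `Λ`, for each base point. -/
  rh : ∀ a : ℝ, ((i : ℝ) + 3) / 2 ≤ a → List.TFAE [∀ s : ℂ, Λ s = 0 → s.re = ((i : ℝ) + 1) / 2,
    ∀ n : ℕ, 1 ≤ n → 0 < li i Λ a n,
    ∀ᶠ n : ℕ in atTop, n ∈ S → 0 ≤ li i Λ a n,
    ∀ r : ℝ, 1 < r → ∀ᶠ n : ℕ in atTop, n ∈ S → -(r ^ n) ≤ li i Λ a n]
  /-- Zero-free half-planes. -/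
  strip : ∀ κ : ℝ, 0 ≤ κ → κ < 1 → List.TFAE [ZeroFree Λ (((i : ℝ) + 1) / 2 + κ / 2),
    ∀ κ' : ℝ, κ < κ' → Small i Λ κ', ∀ κ' : ℝ, κ < κ' → LowerOn S i Λ κ']
  /-- Some zero-free half-plane which meets the critical strip. -/
  quasi : List.TFAE [∃ d : ℝ, d < 1 / 2 ∧ ZeroFree Λ (((i : ℝ) + 1) / 2 + d), ∃ κ : ℝ, κ < 1 ∧ Small i Λ κ,
    ∃ κ : ℝ, κ < 1 ∧ LowerOn S i Λ κ]

theorem key {i n : ℕ} (π : Fin (n + 1) → Part i) :
    ∃ (Λ : ℂ → ℂ) (v : ℂ), v ≠ 0 ∧ IsCompleted π Λ ∧ (∀ Λ' : ℂ → ℂ, IsCompleted π Λ' → Λ' = Λ) ∧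
      (∃ W : ℂ, ‖W‖ = 1 ∧ ∀ s : ℂ, Λ (i + 1 - s) = W * (starRingEnd ℂ) (Λ ((starRingEnd ℂ) s))) ∧
      Pool.Agent.N831.LP.P2 ((n + 1 : ℕ) : ℝ) (fun z => v * Λ (((((i : ℝ) + 1) / 2 : ℝ) : ℂ) + z)) := by
  have hone : ∀ j : Fin (n + 1), ∃ (X : ℂ → ℂ) (v : ℂ), Pool.Agent.N831.LP.P2 1 X ∧ v ≠ 0 ∧
      ∀ s : ℂ, (i : ℝ) / 2 + 1 < s.re → ∃ L : ℂ,
      HasProd (fun p : Nat.Primes =>
        (1 - a (π j).f p * ((p : ℕ) : ℂ) ^ (((π j).r : ℂ) - s) +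
          (π j).ψ ((p : ℕ) : ZMod (π j).M) * ((p : ℕ) : ℂ) ^ ((i : ℂ) - 2 * s))⁻¹) L ∧
      X (s - ((((i : ℝ) + 1) / 2 : ℝ) : ℂ)) =
        v * (((Real.sqrt (π j).M / (2 * Real.pi) : ℝ) : ℂ) ^ s * Complex.Gamma (s - (π j).r) * L) := by
    intro j
    have : NeZero (π j).M := ⟨Nat.one_le_iff_ne_zero.1 (π j).M_pos⟩
    have hf := (π j).newform
    obtain ⟨η, hη, hfr⟩ := hf.fricke
    have hf' : W388.IsNewfC (π j).M (π j).k (π j).ψ (π j).f η :=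
      ⟨hf.neb, hf.one, hf.mul, hf.pow, hf.conj, hη, hfr⟩
    exact Pool.Agent.N831.LP.p2_new (π j).k_pos hf' (π j).weight
  obtain ⟨X, v, h1, h2, h3⟩ := Pool.Agent.N831.LP.p2_parts (σ := (i : ℝ) / 2 + 1)
    (a := ((((i : ℝ) + 1) / 2 : ℝ) : ℂ))
    (fun j p s => 1 - a (π j).f p * ((p : ℕ) : ℂ) ^ (((π j).r : ℂ) - s) +
      (π j).ψ ((p : ℕ) : ZMod (π j).M) * ((p : ℕ) : ℂ) ^ ((i : ℂ) - 2 * s))
    (fun j s => ((Real.sqrt (π j).M / (2 * Real.pi) : ℝ) : ℂ) ^ s * Complex.Gamma (s - (π j).r)) hone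
  rw [Fintype.card_fin] at h1
  obtain ⟨Λ, k1, k2, k3, k4, k5⟩ := Pool.Agent.N831.LP.lam_parts2 h1 h2 (P := fun p s => P π p s) (gm := gam π)
    (a := ((i : ℝ) + 1) / 2) h3
  refine ⟨Λ, v, h2, ⟨k1, k2⟩, fun Λ' h' => k3 Λ' h'.1 h'.2, ?_, k5⟩
  obtain ⟨W, hW, k6⟩ := k4
  refine ⟨W, hW, fun s => ?_⟩
  have k7 := k6 s
  rw [show (2 : ℂ) * ((((i : ℝ) + 1) / 2 : ℝ) : ℂ) = i + 1 by push_cast; ring] at k7
  exact k7

/-- **Main theorem.** The completed Hasse-Weil L-function `Λ` with the parts `π_0, …, π_n` exists, is unique, has a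
functional equation, its Li coefficients are absolutely convergent sums and satisfy `SparseLaw` for all sets `S` of
Bohr recurrence. The values of a polynomial with constant term `0` and positive leading coefficient, the
differences of an increasing sequence and the sets with arbitrarily long blocks are sets of Bohr recurrence. -/
theorem result {i n : ℕ} (π : Fin (n + 1) → Part i) :
    (∃ Λ : ℂ → ℂ, IsCompleted π Λ ∧ (∀ Λ' : ℂ → ℂ, IsCompleted π Λ' → Λ' = Λ) ∧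
      (∃ W : ℂ, ‖W‖ = 1 ∧ ∀ s : ℂ, Λ (i + 1 - s) = W * (starRingEnd ℂ) (Λ ((starRingEnd ℂ) s))) ∧
      (∀ (a : ℝ) (n : ℕ), ((i : ℝ) + 3) / 2 ≤ a → Summable (term i Λ a n)) ∧
      ∀ S : Set ℕ, IsBohrRecurrent S → SparseLaw S i Λ) ∧
    (∀ P : Polynomial ℤ, P.coeff 0 = 0 → 0 < P.leadingCoeff →
      IsBohrRecurrent {n : ℕ | ∃ k : ℕ, (n : ℤ) = P.eval (k : ℤ)}) ∧
    (∀ s : ℕ → ℕ, StrictMono s → IsBohrRecurrent {n : ℕ | ∃ i j : ℕ, i < j ∧ n = s j - s i}) ∧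
    (∀ P : ℕ → Prop, (∀ L n₀ : ℕ, ∃ n : ℕ, n₀ ≤ n ∧ ∀ k, n < k → k ≤ n + L → P k) →
      IsBohrRecurrent {n : ℕ | P n}) := by
  refine ⟨?_, fun P h0 hl => U544.LS.poly_recurrent P h0 hl, fun s hs => U544.LS.diff_recurrent hs,
    fun P hP => U544.LS.blocks_recurrent hP⟩
  obtain ⟨Λ, v, hv, h1, h2, h3, k4⟩ := key π
  have hκ : (1 : ℝ) / 2 ≤ ((n + 1 : ℕ) : ℝ) := by
    push_cast
    have : (0 : ℝ) ≤ n := Nat.cast_nonneg n
    linarith
  have e2 : (2 : ℂ) * ((((i : ℝ) + 1) / 2 : ℝ) : ℂ) = i + 1 := by push_cast; ring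
  have hL : ∀ a n, li i Λ a n = ∑' ρ : {ρ : ℂ // Λ ρ = 0}, (analyticOrderNatAt Λ ρ : ℝ) *
      (1 - (((ρ : ℂ) - a) / (ρ + a - 2 * ((((i : ℝ) + 1) / 2 : ℝ) : ℂ))) ^ n).re := fun a n => by
    rw [e2]
    rfl
  have h0 := Pool.Agent.U156.LD.allG hκ hv k4 (L := li i Λ) hL
  refine ⟨Λ, h1, h2, h3, fun a n ha => ?_, fun S hS => ?_⟩
  · have k5 := h0.conv a n (by linarith)
    rw [e2] at k5
    exact k5
  · have h4 := Pool.Agent.U544.LS.spG hκ hv k4 (L := li i Λ) hL hS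
    refine ⟨fun a s ha hs hre => ?_, fun a r r' ha => h4.bound a r r' (by linarith),
      fun a ha => h4.rh a (by linarith), h4.strip, h4.quasi⟩
    have k5 := h4.off a s (by linarith) hs hre
    rw [e2] at k5
    exact k5

end Pool.Agent.Results.MP_7193be_nt.SparseLiCriteria
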